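import Pool.Agent.H16.CX.Basic

/-!
# Adjacent transpositions suffice
-/

set_option autoImplicit false

open Set Topology Filter MeasureTheory

namespace Pool.Agent.H81.CXS

open Pool.Agent.H16.CX

section
variable {X : Type} [MetricSpace X]

lemma SWP_mul (R : RS X) (w : X) {g h : Equiv.Perm ℕ} (hg : R.res (pe g) w = w)
    (hh : R.res (pe h) w = w) : R.res (pe (g * h)) w = w := by
  rw [res_mul, hg, hh]

lemma SWP_swap_lt (R : RS X) (w : X)
    (h : ∀ p : ℕ, R.res (pe (Equiv.swap p (p + 1))) w = w) (d a : ℕ) :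
    R.res (pe (Equiv.swap a (a + d + 1))) w = w := by
  induction d generalizing a with
  | zero => exact h a
  | succ d ih =>
    have e : Equiv.swap a (a + (d + 1) + 1) =
        Equiv.swap a (a + 1) * Equiv.swap (a + 1) (a + 1 + d + 1) * Equiv.swap a (a + 1) := by
      have h1 : a + (d + 1) + 1 = a + 1 + d + 1 := by omega
      rw [h1]
      have h2 : a + 1 ≠ a + 1 + d + 1 := by omega
      have h3 : a ≠ a + 1 + d + 1 := by omega
      have h4 := Equiv.swap_mul_swap_mul_swap (x := a + 1 + d + 1) (y := a + 1) (z := a)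
        h2.symm h3.symm
      rw [Equiv.swap_comm (a + 1) (a + 1 + d + 1), Equiv.swap_comm a (a + 1), h4]
    rw [e]
    exact SWP_mul R w (SWP_mul R w (h a) (ih (a + 1))) (h a)

lemma SWP_swap (R : RS X) (w : X)
    (h : ∀ p : ℕ, R.res (pe (Equiv.swap p (p + 1))) w = w) (a b : ℕ) :
    R.res (pe (Equiv.swap a b)) w = w := by
  rcases lt_trichotomy a b with h1 | h1 | h1
  · obtain ⟨d, rfl⟩ := Nat.exists_eq_add_of_lt h1
    exact SWP_swap_lt R w h d a
  · subst h1
    rw [Equiv.swap_self]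
    exact res_one R w
  · obtain ⟨d, rfl⟩ := Nat.exists_eq_add_of_lt h1
    rw [Equiv.swap_comm]
    exact SWP_swap_lt R w h d b

lemma SWP_fin (R : RS X) (w : X)
    (h : ∀ p : ℕ, R.res (pe (Equiv.swap p (p + 1))) w = w) (g : Equiv.Perm ℕ) (n : ℕ) :
    ∃ f : Equiv.Perm ℕ, R.res (pe f) w = w ∧ ∀ i < n, f i = g i := by
  induction n with
  | zero => exact ⟨1, res_one R w, fun i hi => absurd hi (Nat.not_lt_zero i)⟩
  | succ n ih =>
    obtain ⟨f, hf, hfg⟩ := ih
    refine ⟨Equiv.swap (f n) (g n) * f, SWP_mul R w (SWP_swap R w h _ _) hf, fun i hi => ?_⟩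
    rw [Equiv.Perm.mul_apply]
    rcases Nat.lt_succ_iff_lt_or_eq.1 hi with h1 | h1
    · rw [Equiv.swap_apply_of_ne_of_ne]
      · exact hfg i h1
      · exact fun h2 => h1.ne (f.injective h2)
      · rw [hfg i h1]
        exact fun h2 => h1.ne (g.injective h2)
    · subst h1
      exact Equiv.swap_apply_left _ _

end

/-- (SWP) -/
theorem pf_swp : T_SWP := by
  intro X _ R w h g
  refine eq_of_dist_eq_zero (le_antisymm (le_of_forall_pos_le_add fun ε hε => ?_) dist_nonneg)
  obtain ⟨n, hn⟩ := R.unif ε hε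
  obtain ⟨f, hf, hfg⟩ := SWP_fin R w h g n
  have h1 := hn (pe g) (pe f) (fun i hi => (hfg i hi).symm) w
  rw [hf] at h1
  linarith

end Pool.Agent.H81.CXS
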